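import Pool.Agent.H775R2.Rad.Wall

set_option autoImplicit false

open MeasureTheory Set Filter Topology
open Pool.Agent.H775R2.Rad

namespace Pool.Agent.Results.MP_ad2fa1_an.DomainWall

/-- The Chern-Simons nonlinearity `q(s) = s (1 - s)` for `0 < s ≤ 1`, without vortex (`N = 0`).
For `p(r) = k^2 r^(2k-2)`, `k ≥ 1` (in particular for `p = 1`) the hypotheses (H1)-(H8) hold, with
strict inequality for `G_1` in (H7), and there is a smooth negative solution which is not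
radially symmetric about any point of the plane. -/
theorem result : ∀ k : ℕ, 1 ≤ k → ∃ q : ℝ → ℝ,
    (∀ s, 0 < s → s ≤ 1 → q s = s * (1 - s)) ∧
    Hyp (fOf fun r => (k : ℝ) ^ 2 * r ^ (2 * (k - 1))) (gOf q) ∧
    (∃ g₁ : ℝ, Tendsto (fun u => G0 (gOf q) u / gOf q u) atBot (𝓝 g₁) ∧
      ∀ u, u < 0 → g₁ < G0 (gOf q) u / gOf q u) ∧
    ∃ u : Plane → ℝ, IsSolution 0 (fun r => (k : ℝ) ^ 2 * r ^ (2 * (k - 1))) q u ∧
      ContDiff ℝ ((⊤ : ℕ∞) : WithTop ℕ∞) u ∧ IsNegative u ∧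
      ∀ c : Plane, ∃ x y : Plane, x ≠ 0 ∧ y ≠ 0 ∧ ‖x - c‖ = ‖y - c‖ ∧ u x ≠ u y := by
  intro k hk
  have hk' : (0 : ℝ) < k := by exact_mod_cast (by omega : 0 < k)
  have h2 : gOf qB = gB := by
    funext u
    unfold gOf qB
    rw [Real.log_exp]
  have h1 : (fOf fun r => (k : ℝ) ^ 2 * r ^ (2 * (k - 1))) =
      fun t => (k : ℝ) ^ 2 * Real.exp ((2 * k) * t) := by
    funext t
    unfold fOf
    simp only
    rw [← Real.exp_nat_mul, mul_left_comm, ← Real.exp_add]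
    congr 2
    push_cast [Nat.cast_sub hk]
    ring
  refine ⟨qB, fun s h0 h1 => qB_eq h0 h1, ?_, ?_, wall k, wall_isSolution k, wall_contDiff k,
    fun x _ => wall_neg k x, wall_not_radial hk⟩
  · rw [h1, h2]
    exact hyp_of goodG_gB (by positivity) (by positivity)
  · rw [h2]
    exact ⟨1, lim_gB, fun u hu => strict_gB hu⟩

end Pool.Agent.Results.MP_ad2fa1_an.DomainWall
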