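import Pool.Agent.H775R2.Rad.Sol

set_option autoImplicit false

open MeasureTheory Set Filter Topology
open Pool.Agent.H775R2.Rad

namespace Pool.Agent.Results.MP_ad2fa1_an.FiniteMass

/-- For every real `N ≥ 0` there are `p, q` such that `f(t) = e^{2t} p(e^t)`, `g(u) = q(e^u)` satisfy
(H1)-(H8), and a negative solution `u` of `Δ u + p(|x|) q(e^u) = 4 π N δ` with
`∫ p(|x|) q(e^u) dx` finite which is not radially symmetric about the origin. -/
theorem result : ∀ N : ℝ, 0 ≤ N → ∃ p q : ℝ → ℝ, Hyp (fOf p) (gOf q) ∧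
    ∃ u : Plane → ℝ, IsSolution N p q u ∧ IsNegative u ∧
      Integrable (fun x : Plane => p ‖x‖ * q (Real.exp (u x))) ∧ ¬ IsRadial u := by
  intro N hN
  refine ⟨pp N, qq, ?_, uu N, uu_isSolution hN, fun x hx => ?_, ?_, uu_not_radial N⟩
  · have hs := sg_pos N
    have h1 : fOf (pp N) = fun t => 1 * Real.exp ((2 + 2 * sg N) * t) := by
      funext t
      unfold fOf pp
      rw [← Real.exp_mul, ← Real.exp_add, one_mul]
      congr 1
      ring
    have h2 : gOf qq = gA := by
      funext u
      unfold gOf qq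
      rw [Real.log_exp]
    rw [h1, h2]
    exact hyp_of goodG_gA one_pos (by positivity)
  · have := uu_le hN hx
    linarith
  · have hsrc : (fun x : Plane => pp N ‖x‖ * qq (Real.exp (uu N x))) = SS (mm N) :=
      funext fun x => source_eq hN x
    rw [hsrc]
    exact SS_integrable (mm_ge N)

end Pool.Agent.Results.MP_ad2fa1_an.FiniteMass
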